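import Pool.Agent.helper60.EPT.Spec

/-!
# Row FLM of project EPT (MP_2b48c2_lc): flatMap in polynomial time
-/

set_option autoImplicit false

namespace Pool.Agent.EPT

open D

theorem FLM_pb (c1 c2 c3 : ℕ) : ∃ c : ℕ, ∀ a : ℕ,
    1 + (a + c2) ^ c2 * ((a + c2) ^ c2 + (a + c3) ^ c3 + 1 + c1) ^ c1 ≤ (a + c) ^ c := by
  obtain ⟨K, hK⟩ : ∃ K, K = c1 + c2 + c3 + 3 := ⟨_, rfl⟩
  refine ⟨K + (K + (K + 1) * c1 + 1), fun a => ?_⟩
  obtain ⟨t, ht⟩ : ∃ t, t = a + K := ⟨_, rfl⟩
  have ht3 : 3 ≤ t := by omega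
  have ht1 : 0 < t := by omega
  have h2 : (a + c2) ^ c2 ≤ t ^ K :=
    le_trans (Nat.pow_le_pow_left (by omega) c2) (Nat.pow_le_pow_right ht1 (by omega))
  have h3 : (a + c3) ^ c3 ≤ t ^ K :=
    le_trans (Nat.pow_le_pow_left (by omega) c3) (Nat.pow_le_pow_right ht1 (by omega))
  have h1 : 1 + c1 ≤ t ^ K := by
    have : t ^ 1 ≤ t ^ K := Nat.pow_le_pow_right ht1 (by omega)
    rw [pow_one] at this
    omega
  have h4 : (a + c2) ^ c2 + (a + c3) ^ c3 + 1 + c1 ≤ t ^ (K + 1) := by
    have e1 : 3 * t ^ K ≤ t * t ^ K := Nat.mul_le_mul_right _ ht3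
    have e2 : t ^ (K + 1) = t * t ^ K := by ring
    omega
  have h5 : ((a + c2) ^ c2 + (a + c3) ^ c3 + 1 + c1) ^ c1 ≤ t ^ ((K + 1) * c1) := by
    rw [pow_mul]
    exact Nat.pow_le_pow_left h4 c1
  have h6 : (a + c2) ^ c2 * ((a + c2) ^ c2 + (a + c3) ^ c3 + 1 + c1) ^ c1 ≤ t ^ (K + (K + 1) * c1) := by
    rw [pow_add]
    exact Nat.mul_le_mul h2 h5
  have h7 : 1 ≤ t ^ (K + (K + 1) * c1) := Nat.one_le_pow _ _ ht1
  have h8 : 2 * t ^ (K + (K + 1) * c1) ≤ t ^ (K + (K + 1) * c1 + 1) := by
    rw [pow_succ, mul_comm]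
    exact Nat.mul_le_mul_left _ (by omega)
  have h9 : t ^ (K + (K + 1) * c1 + 1) ≤ (a + (K + (K + (K + 1) * c1 + 1))) ^ (K + (K + (K + 1) * c1 + 1)) :=
    le_trans (Nat.pow_le_pow_left (by omega) _) (Nat.pow_le_pow_right (by omega) (by omega))
  omega

theorem FLM_fold (g : D → List D) (L : List D) (acc : D) :
    L.foldl (fun acc h => ofList (acc.toList ++ g h)) acc = ofList (acc.toList ++ L.flatMap g) := by
  induction L generalizing acc with
  | nil => simp
  | cons a l ih => rw [List.foldl_cons, ih, toList_ofList, List.flatMap_cons, List.append_assoc]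

theorem FLM_size_append (l l' : List D) : (ofList (l ++ l')).size + 1 = (ofList l).size + (ofList l').size := by
  rw [size_ofList, size_ofList, size_ofList, List.map_append, List.sum_append, List.length_append]
  omega

theorem FLM_size (g : D → List D) (M : ℕ) (L : List D) (h : ∀ a ∈ L, (ofList (g a)).size ≤ M) :
    (ofList (L.flatMap g)).size ≤ 1 + L.length * M := by
  induction L with
  | nil => simp
  | cons a l ih =>
    have h1 := ih fun b hb => h b (List.mem_cons_of_mem _ hb)
    have h2 := h a List.mem_cons_self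
    have h3 := FLM_size_append (g a) (l.flatMap g)
    rw [List.flatMap_cons, List.length_cons, Nat.succ_mul]
    omega

theorem FLM (hC : Cal) (hREV : REV_stmt) : FLM_stmt := by
  intro f l e hf hl he
  have hF : FP fun s => ofList ((s.fst).toList ++ (f s.snd).toList) :=
    hREV.2 (fun s => s.fst) (fun s => f s.snd) (hC.fst _ hC.id) (hC.comp f (fun s => s.snd) hf (hC.snd _ hC.id))
  obtain ⟨c1, h1⟩ := hC.bound f hf
  obtain ⟨c2, h2⟩ := hC.bound l hl
  obtain ⟨c3, h3⟩ := hC.bound e he
  obtain ⟨c, hc⟩ := FLM_pb c1 c2 c3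
  have key := hC.fold (fun s => ofList ((s.fst).toList ++ (f s.snd).toList)) l e (fun _ => nil) hF hl he (hC.const nil)
    ⟨c, by
      intro x L hL
      show (L.foldl (fun acc h => ofList (acc.toList ++ (f (cons h (e x))).toList)) nil).size ≤ _
      rw [FLM_fold (fun h => (f (cons h (e x))).toList) L nil, toList_nil, List.nil_append]
      refine le_trans (FLM_size _ (((x.size + c2) ^ c2 + (x.size + c3) ^ c3 + 1 + c1) ^ c1) L ?_) ?_
      · intro a ha
        rw [ofList_toList]
        refine le_trans (h1 _) (Nat.pow_le_pow_left ?_ _)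
        have ha' : a ∈ (l x).toList := hL.subset ha
        have e1 := size_mem _ _ ha'
        have e2 := h2 x
        have e3 := h3 x
        rw [size_cons]
        omega
      · refine le_trans ?_ (hc x.size)
        have e1 : L.length ≤ (l x).toList.length := hL.length_le
        have e2 := length_le_size (l x)
        have e3 := h2 x
        exact Nat.add_le_add_left (Nat.mul_le_mul_right _ (by omega)) _⟩
  have heq : (fun x => ofList ((l x).toList.flatMap fun a => (f (cons a (e x))).toList)) =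
      fun x => (l x).toList.foldl (fun acc h => ofList (acc.toList ++ (f (cons h (e x))).toList)) nil := by
    funext x
    rw [FLM_fold (fun h => (f (cons h (e x))).toList) (l x).toList nil, toList_nil, List.nil_append]
  rw [heq]
  exact key

end Pool.Agent.EPT
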