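import Pool.Agent.helper60.EPT.SpecS

set_option autoImplicit false

open Filter Topology

namespace Pool.Agent.EPT

open D

theorem SRE_pow (x : ℝ) (n : ℕ) : (2 : ℝ) ^ (-(n * x)) = ((2 : ℝ) ^ (-x)) ^ n := by
  rw [← Real.rpow_natCast, ← Real.rpow_mul (by norm_num)]
  congr 1
  ring

theorem SRE_lt {x : ℝ} (hx : 0 < x) : (2 : ℝ) ^ (-x) < 1 :=
  Real.rpow_lt_one_of_one_lt_of_neg (by norm_num) (by linarith)

theorem SRE : SRE_stmt := by
  intro ε hε
  obtain ⟨r, hr⟩ : ∃ r, r = (2 : ℝ) ^ (-(ε / 2)) := ⟨_, rfl⟩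
  have hr0 : 0 < r := by rw [hr]; positivity
  have hr1 : r < 1 := by rw [hr]; exact SRE_lt (by linarith)
  have h1 : Tendsto (fun n : ℕ => (n : ℝ) * r ^ n) atTop (𝓝 0) := tendsto_self_mul_const_pow_of_lt_one hr0.le hr1
  have h2 : Tendsto (fun n : ℕ => r ^ n) atTop (𝓝 0) := tendsto_pow_atTop_nhds_zero_of_lt_one hr0.le hr1
  have e1 := h1.eventually_lt_const (show (0 : ℝ) < ε / 12 by linarith)
  have e2 := h2.eventually_lt_const (show (0 : ℝ) < 1 - r by linarith)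
  have e3 := tendsto_natCast_atTop_atTop.eventually_ge_atTop (α := ℕ) ε
  obtain ⟨a, a1, a2, a3, a4⟩ := (e1.and (e2.and (e3.and (eventually_ge_atTop 1)))).exists
  have ha0 : (0 : ℝ) < a := by exact_mod_cast a4
  obtain ⟨y, hy⟩ : ∃ y, y = ε / (6 * a) := ⟨_, rfl⟩
  have hy0 : 0 < y := by rw [hy]; positivity
  have hy1 : y ≤ 1 := by
    rw [hy, div_le_one (by positivity)]
    linarith
  have hay : a * y = ε / 6 := by
    rw [hy]
    field_simp
  obtain ⟨s, hs⟩ : ∃ s, s = (2 : ℝ) ^ (-y) := ⟨_, rfl⟩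
  have hs0 : 0 < s := by rw [hs]; positivity
  have hs1 : s < 1 := by rw [hs]; exact SRE_lt hy0
  have h3 : Tendsto (fun n : ℕ => s ^ n) atTop (𝓝 0) := tendsto_pow_atTop_nhds_zero_of_lt_one hs0.le hs1
  have e4 := h3.eventually_lt_const (show (0 : ℝ) < 1 - r by linarith)
  obtain ⟨b, b1, b2⟩ := (e4.and (eventually_ge_atTop 1)).exists
  have hsy : s ≤ 1 - y / 2 := by
    have h4 := rpow_one_add_le_one_add_mul_self (show (-1 : ℝ) ≤ -(1 / 2) by norm_num) hy0.le hy1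
    have h5 : (1 + -(1 / 2) : ℝ) ^ y = s := by
      rw [hs, Real.rpow_neg (by norm_num), ← Real.inv_rpow (by norm_num)]
      norm_num
    rw [h5] at h4
    linarith
  refine ⟨a, b, ε / 2, y, ⟨a4, b2, by linarith, hy0, ?_, ?_, ?_⟩, ?_⟩
  · rw [SRE_pow, ← hr]
    linarith
  · rw [SRE_pow, ← hr, ← hs]
    have h6 : r ^ a ≤ y / 2 := by
      have h7 : a * r ^ a ≤ a * (y / 2) := by
        have : a * (y / 2) = ε / 12 := by
          rw [← mul_div_assoc, hay]
          ring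
        rw [this]
        exact a1.le
      exact le_of_mul_le_mul_left h7 ha0
    linarith
  · rw [SRE_pow, ← hr, ← hs]
    linarith
  · have : 3 * (a : ℝ) * y = 3 * (a * y) := by ring
    rw [this, hay]
    linarith

end Pool.Agent.EPT
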